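import Mathlib
import Pool.Agent.X281.CR.Final

/-!
# Exotic Tate classes and decomposition groups: a criterion for products of powers of abelian
varieties over finite fields with multiplication by given CM fields

Let `p` be a prime number and `K i`, for `i` in a finite set, CM fields (they may be isomorphic or
equal). A tuple `π` of Weil numbers `π i ∈ K i` for `q = p ^ a` defines, by Honda and Tate, abelian
varieties `A i` over the field with `q` elements; the eigenvalues of the Frobenius endomorphism on
`H^1` of the powers of `A i` are the conjugates of `π i`. Raising the `π i` to the power `m` means to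
extend the base field to the field with `q ^ m` elements.

The tuple is *free of exotic classes* (`NoExoticClasses`) if all Tate classes, over all finite
extensions of the base field and in all degrees, on all products of powers of the `A i`, are linear
combinations of products of Tate classes of the following kind: classes of degree two on
`A i × A i` (pairings `B` of the Tate module of `A i` with itself such that
`B (F x, F y) = q * B (x, y)` for the Frobenius `F`). By the theorem of Tate these are classes of
divisors, so then the Tate conjecture holds for all products of powers of the `A i`, in all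
codimensions. If `ℚ(π i ^ n) = K i` for all `n > 0`, that is, if over all extensions the `A i` are
isogenous to powers of simple abelian varieties with centre `K i` of the endomorphism algebra, and no
two of the `A i` have isogenous powers over an extension, then these are all the classes of divisors.

`ExistsFree K p` is the statement: there is a tuple of Weil numbers `π i`, for some `a > 0`, with
`ℚ(π i ^ n) = K i` for all `n > 0`, which is free of exotic classes over some finite extension (the
tuple of the `π i ^ m` is free of exotic classes for some `m > 0`).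

**Criterion** (first part of `result`). Let `L` be a number field, normal over `ℚ`, which contains
all conjugates of the `K i` (the number of embeddings of `K i` in `L` is the degree of `K i`), let `G`
be the Galois group of `L` and `D` the decomposition group of a prime `𝔮` of `L` over `p`. Nothing
else is assumed. Then `ExistsFree K p` holds if and only if the representation of `G` on the odd
functions on the embeddings of the `K i` in `L` (`c (conj φ) = - c φ`) embeds in the permutation
representation of `G` on `D \ G`, that is, on the places of `L` over `p` (`OddPartEmbeds`: there is an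
equivariant map from all functions on the embeddings to the functions on `G` invariant under `D`
that is injective on the odd functions).

If this is so then almost all tuples of Weil numbers are free of exotic classes (second part): there
is `h > 0` such that for all `a` the number of tuples of Weil numbers for `p ^ a` which are not free
of exotic classes, multiplied by `⌊a / h⌋`, is at most the number of all tuples. If it is not so,
then there are exotic classes for all the tuples with `ℚ(π i ^ n) = K i` for all `n > 0`, over all
extensions.

**Normal fields** (third part). Let `F` be a CM field which is normal over `ℚ`. Then `ExistsFree`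
holds for `F` if and only if `F` has an embedding in `ℚ_p`, that is, if and only if `p` splits
completely in `F`. So if `p` does not split completely in `F` then for every abelian variety `A` over
a finite field of characteristic `p` with `ℚ(π ^ n) = F` for all `n > 0` some power of `A` has exotic
Tate classes, which remain exotic over all finite extensions.

Proof. If the tuple `π` is free of exotic classes then, by a theorem of Kronecker, the slopes of `π`
have no odd relations: the map which sends an odd function `c` to the function
`g ↦ ∑ c(φ) v(g φ π)` on `G` is injective; it is equivariant, and its values are invariant under `D`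
(up to a constant they are rational). Conversely an equivariant map with values in the functions
invariant under `D` is of this form with a rational function `v` on the embeddings invariant under
`D`. Two embeddings of `K i` in `L` are in the same orbit of `D` if `𝔮` lies over the same prime
of `K i` for both of them. So an integral multiple of the odd part of `v` gives integral exponents of
the primes of `K i` over `p`, and as the class groups are finite there are Weil numbers with these
slopes, up to a constant factor. They are free of exotic classes since their slopes have no odd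
relations. If `F` is normal, then composing with an enumeration of the embeddings by `G` we get an
injective endomorphism of the space of the odd functions on `G` whose values are invariant under
`D`; so it is surjective, and all odd functions on `G` are invariant under `D`, and `D` is trivial.
-/

set_option autoImplicit false

namespace Pool.Agent.Results.MP_0fca13_ag.DecompositionGroups

open NumberField

open scoped Pointwise

/-- The multilinear form `ψ` in variables `v k ∈ V (t k)` is a product of pairings: there is a
perfect matching `τ` of the variables, matched variables being of the same type `t k`, and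
`ψ v = ∏ B k (v k) (v (τ k))`, the product over the matched pairs, with bilinear forms `B k` that
satisfy `B k (F x, F y) = q B k (x, y)`. -/
def IsProductOfPairings {I Ω : Type} [Field Ω] (V : I → Type) [∀ i, AddCommGroup (V i)]
    [∀ i, Module Ω (V i)] (F : ∀ i, V i →ₗ[Ω] V i) (q : Ω) {n : ℕ} (t : Fin n → I)
    (ψ : MultilinearMap Ω (fun k => V (t k)) Ω) : Prop :=
  ∃ (τ : Equiv.Perm (Fin n)) (B : ∀ k, V (t k) →ₗ[Ω] V (t (τ k)) →ₗ[Ω] Ω),
    (∀ k, τ (τ k) = k) ∧ (∀ k, τ k ≠ k) ∧ (∀ k, t (τ k) = t k) ∧
    (∀ k x y, B k (F (t k) x) (F (t (τ k)) y) = q * B k x y) ∧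
    ∀ v, ψ v = ∏ k with k < τ k, B k (v k) (v (τ k))

variable {I : Type}

/-- The tuples of Weil numbers `π i ∈ K i` for `p ^ a`: algebraic integers all of whose complex
absolute values are `p ^ (a / 2)`. -/
def weilTuples (K : I → Type) [∀ i, Field (K i)] (p a : ℕ) : Set (∀ i, K i) :=
  {π | ∀ i, IsIntegral ℤ (π i) ∧ ∀ φ : K i →+* ℂ, ‖φ (π i)‖ ^ 2 = (p : ℝ) ^ a}

/-- Let `F i` be endomorphisms of spaces `V i` over an algebraically closed field of characteristic
zero, which are spanned by eigenvectors with eigenvalues conjugate to `π i`. All multilinear forms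
in variables `v k ∈ V (t k)` which are multiplied by `c ^ s`, `c ^ 2 = q ^ n`, if `F ^ s` is applied
to all `n` variables, are linear combinations of products of pairings. -/
def NoExoticClasses {K : I → Type} [∀ i, Field (K i)] (p a : ℕ) (π : ∀ i, K i) : Prop :=
  ∀ {Ω : Type} [Field Ω] [IsAlgClosed Ω] [CharZero Ω] (V : I → Type) [∀ i, AddCommGroup (V i)]
    [∀ i, Module Ω (V i)] [∀ i, FiniteDimensional Ω (V i)] (F : ∀ i, V i →ₗ[Ω] V i),
    (∀ i, Submodule.span Ω {v : V i | ∃ σ : K i →+* Ω, F i v = σ (π i) • v} = ⊤) →
    ∀ {n : ℕ} (t : Fin n → I) (s : ℕ), 0 < s → ∀ c : Ω, c ^ 2 = ((p : Ω) ^ a) ^ n →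
    ∀ φ : MultilinearMap Ω (fun k => V (t k)) Ω,
      (∀ v, φ (fun k => (F (t k) ^ s) (v k)) = c ^ s * φ v) →
      φ ∈ Submodule.span Ω {ψ | IsProductOfPairings V F ((p : Ω) ^ a) t ψ}

/-- Some tuple of Weil numbers all powers of which generate the fields is free of exotic classes over
some finite extension. -/
def ExistsFree (K : I → Type) [∀ i, Field (K i)] [∀ i, NumberField (K i)] (p : ℕ) : Prop :=
  ∃ a, 0 < a ∧ ∃ π ∈ weilTuples K p a,
    (∀ i n, 0 < n → IntermediateField.adjoin ℚ {π i ^ n} = ⊤) ∧
    ∃ m, 0 < m ∧ NoExoticClasses p (a * m) (fun i => π i ^ m)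

/-- The odd functions on the embeddings of the `K i` in the normal field `L` can be embedded, as a
representation of the Galois group of `L`, in the functions on this group that are invariant under
the decomposition group of the prime `𝔮`. -/
def OddPartEmbeds (K : I → Type) [∀ i, Field (K i)] [∀ i, NumberField (K i)]
    [∀ i, IsCMField (K i)] {L : Type} [Field L] [NumberField L] (𝔮 : Ideal (𝓞 L)) : Prop :=
  ∃ T : ((Σ i, (K i →+* L)) → ℚ) →ₗ[ℚ] ((L ≃ₐ[ℚ] L) → ℚ),
    (∀ (g : L ≃ₐ[ℚ] L) (c : (Σ i, (K i →+* L)) → ℚ) (h : L ≃ₐ[ℚ] L),
      T (fun x => c ⟨x.1, ((g⁻¹ : L ≃ₐ[ℚ] L) : L →+* L).comp x.2⟩) h = T c (h * g)) ∧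
    (∀ d ∈ MulAction.stabilizer (L ≃ₐ[ℚ] L) 𝔮, ∀ (c : (Σ i, (K i →+* L)) → ℚ) (h : L ≃ₐ[ℚ] L),
      T c (d * h) = T c h) ∧
    ∀ c : (Σ i, (K i →+* L)) → ℚ,
      (∀ x, c ⟨x.1, x.2.comp (IsCMField.complexConj (K x.1) : K x.1 →+* K x.1)⟩ = - c x) →
      T c = 0 → c = 0

/-- Almost all tuples of Weil numbers are free of exotic classes. -/
def AlmostNoneExotic (K : I → Type) [∀ i, Field (K i)] (p : ℕ) : Prop :=
  ∃ h : ℕ, 0 < h ∧ ∀ a : ℕ, {π | π ∈ weilTuples K p a ∧ ¬ NoExoticClasses p a π}.ncard * (a / h) ≤
    (weilTuples K p a).ncard

theorem noExotic_iff {K : I → Type} [∀ i, Field (K i)] (p a : ℕ) (π : ∀ i, K i) :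
    Pool.Agent.W527.Norm.PairingsGenerate p (fun _ => a) π ↔ NoExoticClasses p a π := by
  constructor
  · intro h Ω _ _ _ V _ _ _ F hF n t s hs c hc φ hφ
    exact h V F hF t s hs c (by rw [hc, Finset.prod_const, Finset.card_univ, Fintype.card_fin]) φ hφ
  · intro h Ω _ _ _ V _ _ _ F hF n t s hs c hc φ hφ
    rw [Finset.prod_const, Finset.card_univ, Fintype.card_fin] at hc
    exact h V F hF t s hs c hc φ hφ

theorem exotic_eq (K : I → Type) [∀ i, Field (K i)] (p a : ℕ) :
    {π : ∀ i, K i | π ∈ Pool.Agent.X281.ZO.weilTuples K p a ∧
      ¬ Pool.Agent.W527.Norm.PairingsGenerate p (fun _ => a) π} =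
    {π | π ∈ weilTuples K p a ∧ ¬ NoExoticClasses p a π} := by
  ext π
  constructor
  · rintro ⟨h1, h2⟩
    exact ⟨h1, fun h => h2 ((noExotic_iff p a π).2 h)⟩
  · rintro ⟨h1, h2⟩
    exact ⟨h1, fun h => h2 ((noExotic_iff p a π).1 h)⟩

theorem existsFree_iff (K : I → Type) [∀ i, Field (K i)] [∀ i, NumberField (K i)] (p : ℕ) :
    (∃ b, 0 < b ∧ ∃ ω ∈ Pool.Agent.X281.ZO.weilTuples K p b,
      (∀ i n, 0 < n → IntermediateField.adjoin ℚ {ω i ^ n} = ⊤) ∧ ∃ m, 0 < m ∧
        Pool.Agent.W527.Norm.PairingsGenerate p (fun _ => b * m) (fun i => ω i ^ m)) ↔
      ExistsFree K p := by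
  constructor
  · rintro ⟨b, hb, ω, hω, hgen, m, hm, h⟩
    exact ⟨b, hb, ω, hω, hgen, m, hm, (noExotic_iff p (b * m) (fun i => ω i ^ m)).1 h⟩
  · rintro ⟨b, hb, ω, hω, hgen, m, hm, h⟩
    exact ⟨b, hb, ω, hω, hgen, m, hm, (noExotic_iff p (b * m) (fun i => ω i ^ m)).2 h⟩

/-- **Exotic Tate classes and decomposition groups.** -/
theorem result (p : ℕ) [Fact p.Prime] :
    (∀ (I : Type) [Fintype I] (K : I → Type) [∀ i, Field (K i)] [∀ i, NumberField (K i)]
      [∀ i, IsCMField (K i)] (L : Type) [Field L] [NumberField L] [IsGalois ℚ L],
      (∀ i, Fintype.card (K i →+* L) = Module.finrank ℚ (K i)) →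
      ∀ 𝔮 : Ideal (𝓞 L), 𝔮.IsPrime → (p : 𝓞 L) ∈ 𝔮 →
        (ExistsFree K p ↔ OddPartEmbeds K 𝔮) ∧ (OddPartEmbeds K 𝔮 → AlmostNoneExotic K p)) ∧
    ∀ (F : Type) [Field F] [NumberField F] [IsCMField F] [IsGalois ℚ F],
      ExistsFree (fun _ : Unit => F) p ↔ Nonempty (F →+* ℚ_[p]) := by
  refine ⟨?_, ?_⟩
  · intro I _ K _ _ _ L _ _ _ hL 𝔮 h𝔮 hp
    haveI := h𝔮
    refine ⟨?_, ?_⟩
    · rw [← existsFree_iff]
      exact Pool.Agent.X281.CR.main_iff hL 𝔮 hp
    · intro h
      obtain ⟨h, hh, h1⟩ := Pool.Agent.X281.CR.almost_of_crit hL 𝔮 hp h
      refine ⟨h, hh, fun a => ?_⟩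
      have h2 := h1 a
      rwa [exotic_eq] at h2
  · intro F _ _ _ _
    rw [← existsFree_iff]
    exact Pool.Agent.X281.CR.main_normal F

end Pool.Agent.Results.MP_0fca13_ag.DecompositionGroups
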