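import Pool.Agent.X278.PV.Mult

/-!
# The Tate conjecture for pencils pulled back to the `ℓ`-power Galois coverings of the line
-/

set_option autoImplicit false
set_option linter.all false
set_option maxHeartbeats 4000000

open Polynomial FF Module Pool.Agent.W343.BSD Pool.Agent.Y701.PE
open scoped LinearAlgebra.Projectivization

namespace Pool.Agent.Results.MP_0fca13_ag.PulledBackPencils

section defs

/-- `I` is a set of forms, and `F`, `G` are forms of degree `d`. -/
structure IsPencil {k : Type} [Field k] {n : ℕ} (d : ℕ) (I : Set (MvPolynomial (Fin (n + 1)) k))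
    (F G : MvPolynomial (Fin (n + 1)) k) : Prop where
  variety : ∀ f ∈ I, ∃ j, f.IsHomogeneous j
  pencil : F.IsHomogeneous d ∧ G.IsHomogeneous d

/-- The product `Λ(T) = ∏ P_w(T ^ (deg w))⁻¹` over the places `w` of `L` (over the field of constants
`k`), where `P_w(T) = exp (-∑ a_w(m) T ^ m / m)` and `∑ c_i Q ^ i - a_w(m)` is the number of the points of
the subvariety of `Y` (the variety defined by `I`) defined by `F = t(w) G` (by `G = 0` if `t(w) = ∞`) over
the extension of degree `m`, with `Q` elements, of the residue field of `w`. So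
`P_w(T) = Z_w(T) ∏ (1 - q_w ^ i T) ^ c_i`, where `Z_w` is the zeta function of this subvariety. -/
abbrev IsL (k : Type) {L : Type} [Field k] [Field L] [Algebra k L] {n : ℕ} (N : ℕ) (c : ℕ → ℕ)
    (t : L) (I : Set (MvPolynomial (Fin (n + 1)) k)) (F G : MvPolynomial (Fin (n + 1)) k)
    (Λ : PowerSeries ℤ) : Prop :=
  IsLFunction k (fun Q => ∑ i ∈ Finset.range N, (c i : ℤ) * (Q : ℤ) ^ i) t I F G Λ

/-- `P_v`, as in the definition of `IsL`. -/
abbrev IsP {k L : Type} [Field k] [Field L] [Algebra k L] {n : ℕ} (N : ℕ) (c : ℕ → ℕ)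
    (v : Place k L) (t : L) (I : Set (MvPolynomial (Fin (n + 1)) k))
    (F G : MvPolynomial (Fin (n + 1)) k) (P : PowerSeries ℤ) : Prop :=
  IsNumerator (fun Q => ∑ i ∈ Finset.range N, (c i : ℤ) * (Q : ℤ) ^ i) v t I F G P

/-- The zeta functions of the variety and of the base locus are `∏ (1 - q ^ i T) ^ (-β_i)`, `i ≤ N`, and
`∏ (1 - q ^ i T) ^ (-z_i) / P(T)`, `i < N`, and the numbers `β_i`, `z_i`, `c_i` satisfy the relations
between the Betti numbers of the variety, the base locus and the hypersurface sections. -/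
structure IsCellular (q : ℤ) (N : ℕ) (β z c : ℕ → ℕ) (P : ℤ[X]) (ZY ZB : PowerSeries ℤ) : Prop where
  variety : ZY * ((∏ i ∈ Finset.range (N + 1), (1 - C (q ^ i) * X) ^ β i : ℤ[X]) :
    PowerSeries ℤ) = 1
  base : ZB * (((∏ i ∈ Finset.range N, (1 - C (q ^ i) * X) ^ z i) * P : ℤ[X]) : PowerSeries ℤ) = 1
  first : β 0 = c 0
  next : ∀ i, i < N → β (i + 1) + z i = c i + c (i + 1)
  last : c N = 0

/-- The multiplicity modulo `ℓ` of the zero `x` of `A(T ^ d)`. -/
noncomputable def mult (ℓ : ℕ) [Fact ℓ.Prime] (x : ZMod ℓ) (d : ℕ) (A : ℤ[X]) : ℕ :=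
  ((expand ℤ d A).map (Int.castRingHom (ZMod ℓ))).rootMultiplicity x

/-- The order of vanishing of the polynomial `R` at `1 / Q`. -/
noncomputable def order (Q : ℕ) (R : ℤ[X]) : ℕ :=
  (R.map (Int.castRingHom ℚ)).rootMultiplicity ((Q : ℚ)⁻¹)

/-- The integer `q ^ (j deg P) P(q ^ (-j))`. -/
noncomputable def value (q : ℤ) (j : ℕ) (P : ℤ[X]) : ℤ := P.reverse.eval (q ^ j)

/-- The place `w` of `L` lies over the place `v` of `K`, with the ramification index `e`. The fields of
constants `k` and `k'` may be different. -/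
def LiesOver {k K k' L : Type} [Field k] [Field K] [Algebra k K] [Field k'] [Field L]
    [Algebra k' L] [Algebra K L] (w : Place k' L) (v : Place k K) (e : ℕ) : Prop :=
  0 < e ∧ ∀ f : K, w.ord (algebraMap K L f) = e * v.ord f

/-- `L` is a Galois extension of `k(t)` of degree a power of `ℓ` with field of constants `k'`; the
places over `v` have the ramification index `e v`, which is `1` outside the finite set `B`. -/
structure IsLayer (k k' L : Type) [Field k] [Field k'] [Field L] [Algebra k' L] [Algebra k k']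
    [Algebra (RatFunc k) L] (ℓ : ℕ) (e : Place k (RatFunc k) → ℕ)
    (B : Finset (Place k (RatFunc k))) : Prop where
  curve : IsCurveField k' L
  galois : IsGalois (RatFunc k) L
  power : ∃ s : ℕ, finrank (RatFunc k) L = ℓ ^ s
  index : ∀ (v : Place k (RatFunc k)) (w : Place k' L) (n : ℕ), LiesOver w v n → n = e v
  unramified : ∀ v, v ∉ B → e v = 1

end defs

open Pool.Agent.X278.PV

theorem prod_coe {N : ℕ} (f : ℕ → ℤ[X]) : ((∏ i ∈ Finset.range N, f i : ℤ[X]) : PowerSeries ℤ) =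
    ∏ i ∈ Finset.range N, (f i : PowerSeries ℤ) :=
  map_prod (Polynomial.coeToPowerSeries.ringHom (R := ℤ)) f (Finset.range N)

/-- the trivial factors cancel -/
theorem triv_cancel (q : ℤ) {N : ℕ} {β z c : ℕ → ℕ} (h0 : β 0 = c 0)
    (h1 : ∀ i, i < N → β (i + 1) + z i = c i + c (i + 1)) (h2 : c N = 0) :
    (∏ i ∈ Finset.range (N + 1), (1 - C (q ^ i) * X) ^ β i) *
      ∏ i ∈ Finset.range N, (1 - C (q ^ (i + 1)) * X) ^ z i = trivPoly q N c := by
  unfold trivPoly
  have e1 : (∏ i ∈ Finset.range N, (1 - C (q ^ i) * X : ℤ[X]) ^ c i) =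
      (∏ i ∈ Finset.range N, (1 - C (q ^ (i + 1)) * X) ^ c (i + 1)) *
        (1 - C (q ^ 0) * X) ^ c 0 := by
    rw [← Finset.prod_range_succ' (fun i => (1 - C (q ^ i) * X : ℤ[X]) ^ c i),
      Finset.prod_range_succ, h2, pow_zero, mul_one]
  simp only [mul_pow]
  rw [Finset.prod_mul_distrib, e1, Finset.prod_range_succ', h0]
  have e2 : (∏ i ∈ Finset.range N, (1 - C (q ^ (i + 1)) * X : ℤ[X]) ^ β (i + 1)) *
      ∏ i ∈ Finset.range N, (1 - C (q ^ (i + 1)) * X) ^ z i =
      (∏ i ∈ Finset.range N, (1 - C (q ^ (i + 1)) * X) ^ c (i + 1)) *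
      ∏ i ∈ Finset.range N, (1 - C (q ^ (i + 1)) * X) ^ c i := by
    rw [← Finset.prod_mul_distrib, ← Finset.prod_mul_distrib]
    refine Finset.prod_congr rfl fun i hi => ?_
    rw [← pow_add, ← pow_add, h1 i (Finset.mem_range.1 hi), add_comm (c i)]
  linear_combination ((1 - C (q ^ 0) * X : ℤ[X]) ^ c 0) * e2

theorem rescale_prod (q : ℤ) (N : ℕ) (z : ℕ → ℕ) :
    (∏ i ∈ Finset.range N, (1 - C (q ^ i) * X : ℤ[X]) ^ z i).comp (C q * X) =
      ∏ i ∈ Finset.range N, (1 - C (q ^ (i + 1)) * X) ^ z i := by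
  rw [Polynomial.prod_comp]
  refine Finset.prod_congr rfl fun i _ => ?_
  rw [Polynomial.pow_comp, Polynomial.sub_comp, Polynomial.one_comp, Polynomial.mul_comp,
    Polynomial.C_comp, Polynomial.X_comp, pow_succ, C_mul]
  ring

theorem exact_cellular {k : Type} [Field k] [Finite k] {n : ℕ}
    {I : Set (MvPolynomial (Fin (n + 1)) k)} {F G : MvPolynomial (Fin (n + 1)) k}
    {N : ℕ} {β z c : ℕ → ℕ} {PZ : ℤ[X]} {Λ ZY ZB : PowerSeries ℤ}
    (hΛ : IsL k N c (RatFunc.X : RatFunc k) I F G Λ) (hY : IsZeta I ZY)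
    (hZ : IsZeta (I ∪ {F, G}) ZB) (hT : IsCellular (Nat.card k : ℤ) N β z c PZ ZY ZB) :
    Λ = ((PZ.comp (C (Nat.card k : ℤ) * X) : ℤ[X]) : PowerSeries ℤ) := by
  set q : ℤ := (Nat.card k : ℤ) with hq
  have hex := exact_var hΛ hY hZ
  rw [← triv_coe, ← hq] at hex
  have h1 := congrArg (PowerSeries.rescale q) hT.base
  rw [map_mul, rescale_coe, map_one, Polynomial.mul_comp, rescale_prod, Polynomial.coe_mul] at h1
  have h2 := hT.variety
  have h3 := congrArg (fun p : ℤ[X] => (p : PowerSeries ℤ)) (triv_cancel q hT.first hT.next hT.last)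
  simp only [Polynomial.coe_mul] at h3
  set a := ((∏ i ∈ Finset.range (N + 1), (1 - C (q ^ i) * X) ^ β i : ℤ[X]) : PowerSeries ℤ)
  set b := ((∏ i ∈ Finset.range N, (1 - C (q ^ (i + 1)) * X) ^ z i : ℤ[X]) : PowerSeries ℤ)
  set t := ((trivPoly q N c : ℤ[X]) : PowerSeries ℤ)
  set p := ((PZ.comp (C q * X) : ℤ[X]) : PowerSeries ℤ)
  set r := PowerSeries.rescale q ZB
  -- `Λ ZY r t = 1`, `ZY a = 1`, `r b p = 1`, `a b = t`
  calc Λ = Λ * (ZY * a) * (r * (b * p)) := by rw [h2, h1, mul_one, mul_one]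
    _ = (Λ * ZY * r * (a * b)) * p := by ring
    _ = p := by rw [h3, hex, one_mul]

theorem mult_value {k : Type} [Field k] [Finite k] {ℓ : ℕ} [hℓ : Fact ℓ.Prime] (hℓk : (ℓ : k) ≠ 0)
    {j : ℕ} {P : ℤ[X]} (h : ¬ (ℓ : ℤ) ∣ value (Nat.card k : ℤ) j P) :
    mlt ℓ (((Nat.card k : ℕ) : ZMod ℓ) ^ j)⁻¹ 1 P = 0 := by
  have hq0 := card_ne_zero_mod (k := k) hℓk
  set qq : ZMod ℓ := ((Nat.card k : ℕ) : ZMod ℓ) with hqq
  have hqj : qq ^ j ≠ 0 := pow_ne_zero _ hq0
  unfold mlt
  rw [expand_one]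
  apply rootMultiplicity_eq_zero
  intro h1
  apply h
  rw [IsRoot.def, eval_map] at h1
  haveI : Invertible ((qq ^ j)⁻¹) := invertibleOfNonzero (inv_ne_zero hqj)
  have h2 := eval₂_reverse_mul_pow (Int.castRingHom (ZMod ℓ)) ((qq ^ j)⁻¹) P
  rw [h1] at h2
  have h3 : (⅟((qq ^ j)⁻¹) : ZMod ℓ) = qq ^ j := by
    rw [invOf_eq_inv, inv_inv]
  rw [h3] at h2
  have h4 := (mul_eq_zero.1 h2).resolve_right (pow_ne_zero _ (inv_ne_zero hqj))
  have h5 : ((value (Nat.card k : ℤ) j P : ℤ) : ZMod ℓ) = 0 := by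
    unfold value
    have h6 : ((P.reverse.eval ((Nat.card k : ℤ) ^ j) : ℤ) : ZMod ℓ) =
        eval₂ (Int.castRingHom (ZMod ℓ)) (qq ^ j) P.reverse := by
      have h7 := Polynomial.hom_eval₂ P.reverse (RingHom.id ℤ) (Int.castRingHom (ZMod ℓ))
        ((Nat.card k : ℤ) ^ j)
      rw [RingHom.comp_id] at h7
      rw [← eq_intCast (Int.castRingHom (ZMod ℓ))]
      have h8 : (Int.castRingHom (ZMod ℓ)) ((Nat.card k : ℤ) ^ j) = qq ^ j := by
        rw [map_pow, eq_intCast, Int.cast_natCast]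
      rw [h8] at h7
      exact h7
    rw [h6, h4]
  exact (ZMod.intCast_zmod_eq_zero_iff_dvd _ _).1 h5

/-- Let `k` be a finite field with `q` elements, `Y` a projective variety over `k` (given by the forms in
`I`), `F` and `G` forms of the same degree with the base locus `Z : F = G = 0` in `Y`, and suppose that
the zeta function of `Y` is that of a cellular variety, `Z_Y(T) = ∏ (1 - q ^ i T) ^ (-β_i)`, and
`Z_Z(T) = ∏ (1 - q ^ i T) ^ (-z_i) / P_Z(T)`, with the relations `β_(i + 1) + z_i = c_i + c_(i + 1)` of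
the Betti numbers (`IsCellular`). The main case: `Y = ℙ ^ N`, `N` even, `β_i = 1` for `i ≤ N`, `c_i = 1` for
`i < N`, `z_i = 1` for `i ≤ N - 2`, where `Z` is a smooth complete intersection of two hypersurfaces of degree
`d` and `P_Z` is the characteristic polynomial of the Frobenius on its primitive cohomology in the middle
degree `N - 2`; others are the Grassmannians and toric varieties.

For a finite extension `L` of `k(t)`, with field of constants `k'`, `q' = |k'|`, let `𝒳_L → C_L` be the pull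
back of the pencil `F = t G` to the curve `C_L` of `L`, of dimension `N`, smooth if `L` is unramified at the
singular fibres. The zeta function of `𝒳_L` is `∏ ζ_L(q' ^ i T) ^ c_i / Λ_L(T)`. So the order of its pole at
`q' ^ (-b)` is `c_b + c_(b - 1)` plus the order of vanishing of `Λ_L` there; for `Y = ℙ ^ N` the first number
is `2` for `0 < b < N`, the rank of the group spanned by the independent classes `h ^ b`, `h ^ (b - 1) f` of
the hyperplane `h` and the fibre `f`, and `Λ_L` is the `L`-function of the primitive cohomology of the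
fibres, a polynomial `R` (so `W = 1`).

(1) `Λ(T) = P_Z(q T)` for `L = k(t)`.

(2) Let `ℓ` be a prime different from the characteristic, `L` any finite Galois extension of `k(t)` of
degree a power of `ℓ` with ramification indices `e_v`, `P_v = A_v / Q_v` the Euler factors at the ramified
places, and `Λ_L = R / W`. For all `b = j + 1 ≥ 1` one has the exact formula
`mult R - mult W = [L : k(t)] mult P_Z + ∑_v ([L : k(t)] - [L : k(t)] / e_v) (mult A_v - mult Q_v)`
for the multiplicities modulo `ℓ` of the zero `q ^ (-b)` of `R(T ^ [k' : k])`, `W(T ^ [k' : k])`,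
`A_v(T ^ (deg v))`, `Q_v(T ^ (deg v))` and of the zero `q ^ (1 - b)` of `P_Z`, and `[k' : k]` times the order
of vanishing of `R` at `q' ^ (-b)` is at most `mult R`.

(3) If `ℓ` does not divide the integer `q ^ (j deg P_Z) P_Z(q ^ (-j))`, and `A_v` is a unit modulo `ℓ` at
`q_v ^ (-b)` at the ramified places (for `Y = ℙ ^ N` and a smooth fibre: `ℓ` does not divide
`det(1 - q_v ^ (-b) Frob_v)` on the cohomology in the middle degree `N - 1`), then `R(q' ^ (-b)) ≠ 0` for
these `L`.

So if `Z` has no Tate classes in the primitive cohomology of codimension `b - 1` (`P_Z(q ^ (1 - b)) ≠ 0`), then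
for all primes `ℓ` outside an explicit finite set and all these `L`, of unbounded genus and with arbitrary
field of constants, the order of the pole at `q' ^ (-b)` is the rank of the group of the algebraic classes
of codimension `b` of `𝒳_L`, generated by `h ^ b`, `h ^ (b - 1) f`. By Tate's theorem this is equivalent to
the full conjecture for `𝒳_L` in codimension `b` (with the semisimplicity and the injectivity); for
`b ≠ N / 2` it holds by Deligne. This is for example the case `b = 2` for the fourfolds `𝒳_L` fibred in cubic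
threefolds over `C_L`, and `b = N / 2` for hypersurfaces of any degree and dimension `N - 1`. -/
theorem result (k : Type) [Field k] [Finite k] (n d : ℕ)
    (I : Set (MvPolynomial (Fin (n + 1)) k)) (F G : MvPolynomial (Fin (n + 1)) k)
    (hI : IsPencil d I F G) (N : ℕ) (β z c : ℕ → ℕ) (PZ : ℤ[X]) (Λ ZY ZB : PowerSeries ℤ)
    (hΛ : IsL k N c (RatFunc.X : RatFunc k) I F G Λ) (hY : IsZeta I ZY)
    (hZ : IsZeta (I ∪ {F, G}) ZB) (hT : IsCellular (Nat.card k : ℤ) N β z c PZ ZY ZB) :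
    Λ = ((PZ.comp (C (Nat.card k : ℤ) * X) : ℤ[X]) : PowerSeries ℤ) ∧
    ∀ (ℓ : ℕ) [Fact ℓ.Prime], (ℓ : k) ≠ 0 → ∀ (k' L : Type) [Field k'] [Finite k'] [Field L]
      [Algebra k' L] [Algebra k k'] [Algebra k L] [Algebra (RatFunc k) L]
      [IsScalarTower k (RatFunc k) L] [IsScalarTower k k' L] (e : Place k (RatFunc k) → ℕ)
      (B : Finset (Place k (RatFunc k))), IsLayer k k' L ℓ e B →
      ∀ Λ' : PowerSeries ℤ, IsL k' N c (algebraMap (RatFunc k) L RatFunc.X)
          (MvPolynomial.map (algebraMap k k') '' I) (MvPolynomial.map (algebraMap k k') F)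
          (MvPolynomial.map (algebraMap k k') G) Λ' →
      ∀ (P : Place k (RatFunc k) → PowerSeries ℤ) (A Q : Place k (RatFunc k) → ℤ[X]),
        (∀ v ∈ B, IsP N c v (RatFunc.X : RatFunc k) I F G (P v) ∧ (Q v).coeff 0 = 1 ∧
          P v * (Q v : PowerSeries ℤ) = (A v : PowerSeries ℤ)) →
      ∀ W R : ℤ[X], W.coeff 0 = 1 → Λ' * (W : PowerSeries ℤ) = (R : PowerSeries ℤ) →
      ∀ (j : ℕ) (x : ZMod ℓ), ((Nat.card k : ℕ) : ZMod ℓ) ^ (j + 1) * x = 1 →
        (mult ℓ x (finrank k k') R +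
            ∑ v ∈ B, (finrank (RatFunc k) L - finrank (RatFunc k) L / e v) *
              mult ℓ x (S.deg v) (Q v) =
          mult ℓ x (finrank k k') W +
            finrank (RatFunc k) L * mult ℓ (((Nat.card k : ℕ) : ZMod ℓ) * x) 1 PZ +
            ∑ v ∈ B, (finrank (RatFunc k) L - finrank (RatFunc k) L / e v) *
              mult ℓ x (S.deg v) (A v) ∧
          finrank k k' * order (Nat.card k' ^ (j + 1)) R ≤ mult ℓ x (finrank k k') R) ∧
        (¬ (ℓ : ℤ) ∣ value (Nat.card k : ℤ) j PZ →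
          (∀ v ∈ B, e v ≠ 1 → mult ℓ x (S.deg v) (A v) = 0) →
          mult ℓ x (finrank k k') W = 0 →
          mult ℓ x (finrank k k') R = 0 ∧ order (Nat.card k' ^ (j + 1)) R = 0) := by
  classical
  have hex := exact_cellular hΛ hY hZ hT
  refine ⟨hex, ?_⟩
  intro ℓ hℓ hℓk k' L _ _ _ _ _ _ _ _ _ e B hlay Λ' hΛ' P A Q hP W R hW hR j x hx
  have hq0 := card_ne_zero_mod (k := k) hℓk
  have hqc : (((Nat.card k : ℕ) : ℤ) : ZMod ℓ) = ((Nat.card k : ℕ) : ZMod ℓ) := by push_cast; rfl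
  have hq0' : (((Nat.card k : ℕ) : ℤ) : ZMod ℓ) ≠ 0 := by rw [hqc]; exact hq0
  obtain rfl : x = (((Nat.card k : ℕ) : ZMod ℓ) ^ (j + 1))⁻¹ := eq_inv_of_mul_eq_one_right hx
  have hKc : IsCurveField k (RatFunc k) :=
    { essFiniteType := (inferInstance : FF.IsFF k (RatFunc k)).1
      trdeg_eq_one := (inferInstance : FF.IsFF k (RatFunc k)).2
      algClosed := Pool.Agent.W309.RF.const_rat }
  have hmlt : ∀ (x : ZMod ℓ) (d : ℕ) (A : ℤ[X]), mult ℓ x d A = mlt ℓ x d A := fun _ _ _ => rfl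
  obtain ⟨h1, h2⟩ := pencil_eq hKc hlay.curve hℓk hlay.galois hlay.power hlay.index B
      hlay.unramified _ (RatFunc.X : RatFunc k) hΛ hΛ' (V := 1) (U := PZ.comp (C (Nat.card k : ℤ) * X))
      (by simp) (by rw [Polynomial.coe_one, mul_one]; exact hex)
      (fun v hv => ⟨(hP v hv).1, (hP v hv).2.2, (hP v hv).2.1⟩) (j + 1) R W hW hR
  rw [mlt_one, mul_zero, add_zero, mlt_comp _ hq0', hqc] at h1
  have h3 := h2 _ rfl
  refine ⟨⟨h1, h3⟩, ?_⟩
  intro hval hv hW0
  have e1 : mlt ℓ (((Nat.card k : ℕ) : ZMod ℓ) * (((Nat.card k : ℕ) : ZMod ℓ) ^ (j + 1))⁻¹) 1 PZ =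
      0 := by
    have e2 : ((Nat.card k : ℕ) : ZMod ℓ) * (((Nat.card k : ℕ) : ZMod ℓ) ^ (j + 1))⁻¹ =
        (((Nat.card k : ℕ) : ZMod ℓ) ^ j)⁻¹ := by
      rw [pow_succ, mul_inv, mul_comm (_ ^ j)⁻¹, ← mul_assoc, mul_inv_cancel₀ hq0, one_mul]
    rw [e2]
    exact mult_value hℓk hval
  have e3 : ∑ v ∈ B, (finrank (RatFunc k) L - finrank (RatFunc k) L / e v) *
      mlt ℓ (((Nat.card k : ℕ) : ZMod ℓ) ^ (j + 1))⁻¹ (S.deg v) (A v) = 0 := by
    refine Finset.sum_eq_zero fun v hvB => ?_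
    by_cases he : e v = 1
    · rw [he, Nat.div_one, Nat.sub_self, zero_mul]
    · have h4 := hv v hvB he
      rw [hmlt] at h4
      rw [h4, mul_zero]
  rw [hmlt] at hW0
  rw [e1, e3, hW0] at h1
  have e4 : mult ℓ (((Nat.card k : ℕ) : ZMod ℓ) ^ (j + 1))⁻¹ (finrank k k') R = 0 := by
    rw [hmlt]
    omega
  refine ⟨e4, ?_⟩
  rw [← hmlt, e4] at h3
  have i5 : Module.Finite k k' := Module.Finite.of_finite
  exact (Nat.mul_eq_zero.1 (Nat.le_zero.1 h3)).resolve_left finrank_pos.ne'

end Pool.Agent.Results.MP_0fca13_ag.PulledBackPencils
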