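import Mathlib
import Pool.Agent.X281.ZO.Final

/-!
# Products of powers of abelian varieties over finite fields with multiplication by given CM fields:
# either all have exotic Tate classes or almost none

Let `p` be a prime number and `K i`, for `i` in a finite set, CM fields (they may be isomorphic or
equal). A tuple `π` of Weil numbers `π i ∈ K i` for `q = p ^ a` defines, by Honda and Tate, abelian
varieties `A i` over the field with `q` elements; the eigenvalues of the Frobenius endomorphism on
`H^1` of the powers of `A i` are the conjugates of `π i`. There are finitely many tuples for given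
`a`.

The tuple is *free of exotic classes* (`NoExoticClasses`) if all Tate classes, over all finite
extensions of the base field and in all degrees, on all products of powers of the `A i`, are linear
combinations of products of Tate classes of the following kind: classes of degree two on
`A i × A i` (pairings `B` of the Tate module of `A i` with itself such that
`B (F x, F y) = q * B (x, y)` for the Frobenius `F`). By the theorem of Tate these are classes of
divisors, so then the Tate conjecture holds for all products of powers of the `A i`, in all
codimensions.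

If `ℚ(π i ^ n) = K i` for all `n > 0`, that is, if the `A i` are absolutely simple up to isogeny and
powers with the centre `K i` of the endomorphism algebra, and if no two of the `A i` have isogenous
powers over an extension, these are all the Tate classes of degree two. So then the tuple is free of
exotic classes if and only if all Tate classes on all products of powers are polynomials in the
divisor classes.

**Zero-one law** (`result`). Nothing is assumed on the fields `K i` and on `p`. One of the following
two statements holds.

* No tuple of Weil numbers `ω i` with `ℚ(ω i) = K i` is free of exotic classes, for any `a`.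
* Almost all tuples are free of exotic classes: there is a number `h > 0` such that for all `a` the
  number of tuples of Weil numbers for `p ^ a` which are not free of exotic classes, multiplied by
  `⌊a / h⌋`, is at most the number of all tuples of Weil numbers for `p ^ a`.

In other words: a single example of a tuple `ω`, for a single `a`, which is free of exotic classes,
implies that almost all tuples are, with the proportion `O(1 / a)` of exceptions.

The second part gives a class of families for which almost all tuples are free of exotic classes: the
fields `K i` are pairwise independent (for `i ≠ i'` and all complex embeddings `φ`, `ψ` of `K i` and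
`K i'` some automorphism of `ℂ` is the identity on `φ (K i)` and the complex conjugation on
`ψ (K i')`) and each of them has a place of degree one over `p`. The case of a single field with a
place of degree one is the starting result `MP_557161_ag.FewExoticWeilNumbers`.

Proof. Consider the matrix `M(π)` of the deviations of the slopes from the middle slope, whose rows
are the embeddings of a normal closure in the algebraic closure of `ℚ_p` and whose columns are the
embeddings of the `K i`. By the theorem of Kronecker the tuple is free of exotic classes if and only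
if `M(π)` has the largest rank possible for an antisymmetric matrix. If `M(ω)` has this property, and
`η = ω / conj ω`, then `M(π η ^ k) = M(π) + 2 k M(ω)`, and composing with a left inverse of `M(ω)` we
see that `M(π η ^ k)` has the same property for all but a bounded number of `k`. The lines
`π η ^ k` may be short. But each of them begins with a tuple for which one of the slopes is
near to `0`, and such tuples are few: one sees this by means of the lines in the direction of the
quotient of a generator of a power of a prime ideal by its conjugate, which are all long.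
-/

set_option autoImplicit false

namespace Pool.Agent.Results.MP_0fca13_ag.ZeroOneLaw

open NumberField

/-- The multilinear form `ψ` in variables `v k ∈ V (t k)` is a product of pairings: there is a
perfect matching `τ` of the variables, matched variables being of the same type `t k`, and
`ψ v = ∏ B k (v k) (v (τ k))`, the product over the matched pairs, with bilinear forms `B k` that
satisfy `B k (F x, F y) = q B k (x, y)`. -/
def IsProductOfPairings {I Ω : Type} [Field Ω] (V : I → Type) [∀ i, AddCommGroup (V i)]
    [∀ i, Module Ω (V i)] (F : ∀ i, V i →ₗ[Ω] V i) (q : Ω) {n : ℕ} (t : Fin n → I)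
    (ψ : MultilinearMap Ω (fun k => V (t k)) Ω) : Prop :=
  ∃ (τ : Equiv.Perm (Fin n)) (B : ∀ k, V (t k) →ₗ[Ω] V (t (τ k)) →ₗ[Ω] Ω),
    (∀ k, τ (τ k) = k) ∧ (∀ k, τ k ≠ k) ∧ (∀ k, t (τ k) = t k) ∧
    (∀ k x y, B k (F (t k) x) (F (t (τ k)) y) = q * B k x y) ∧
    ∀ v, ψ v = ∏ k with k < τ k, B k (v k) (v (τ k))

variable {I : Type}

/-- The tuples of Weil numbers `π i ∈ K i` for `p ^ a`: algebraic integers all of whose complex
absolute values are `p ^ (a / 2)`. -/
def weilTuples (K : I → Type) [∀ i, Field (K i)] (p a : ℕ) : Set (∀ i, K i) :=
  {π | ∀ i, IsIntegral ℤ (π i) ∧ ∀ φ : K i →+* ℂ, ‖φ (π i)‖ ^ 2 = (p : ℝ) ^ a}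

/-- Let `F i` be endomorphisms of spaces `V i` over an algebraically closed field of characteristic
zero, which are spanned by eigenvectors with eigenvalues conjugate to `π i`. All multilinear forms
in variables `v k ∈ V (t k)` which are multiplied by `c ^ s`, `c ^ 2 = q ^ n`, if `F ^ s` is applied
to all `n` variables, are linear combinations of products of pairings. -/
def NoExoticClasses {K : I → Type} [∀ i, Field (K i)] (p a : ℕ) (π : ∀ i, K i) : Prop :=
  ∀ {Ω : Type} [Field Ω] [IsAlgClosed Ω] [CharZero Ω] (V : I → Type) [∀ i, AddCommGroup (V i)]
    [∀ i, Module Ω (V i)] [∀ i, FiniteDimensional Ω (V i)] (F : ∀ i, V i →ₗ[Ω] V i),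
    (∀ i, Submodule.span Ω {v : V i | ∃ σ : K i →+* Ω, F i v = σ (π i) • v} = ⊤) →
    ∀ {n : ℕ} (t : Fin n → I) (s : ℕ), 0 < s → ∀ c : Ω, c ^ 2 = ((p : Ω) ^ a) ^ n →
    ∀ φ : MultilinearMap Ω (fun k => V (t k)) Ω,
      (∀ v, φ (fun k => (F (t k) ^ s) (v k)) = c ^ s * φ v) →
      φ ∈ Submodule.span Ω {ψ | IsProductOfPairings V F ((p : Ω) ^ a) t ψ}

/-- The tuples of Weil numbers for `p ^ a` which are not free of exotic classes. -/
def exoticTuples (K : I → Type) [∀ i, Field (K i)] (p a : ℕ) : Set (∀ i, K i) :=
  {π | π ∈ weilTuples K p a ∧ ¬ NoExoticClasses p a π}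

/-- Almost all tuples of Weil numbers are free of exotic classes. -/
def AlmostNoneExotic (K : I → Type) [∀ i, Field (K i)] (p : ℕ) : Prop :=
  ∃ h : ℕ, 0 < h ∧ ∀ a : ℕ, (exoticTuples K p a).ncard * (a / h) ≤ (weilTuples K p a).ncard

/-- For `i ≠ i'` and all complex embeddings `φ` of `K i` and `ψ` of `K i'` some automorphism of the
complex numbers is the identity on `φ (K i)` and the complex conjugation on `ψ (K i')`. -/
def PairwiseIndependent (K : I → Type) [∀ i, Field (K i)] : Prop :=
  ∀ i i', i ≠ i' → ∀ (φ : K i →+* ℂ) (ψ : K i' →+* ℂ), ∃ σ : ℂ ≃+* ℂ,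
    (∀ x, σ (φ x) = φ x) ∧ ∀ y, σ (ψ y) = (starRingEnd ℂ) (ψ y)

theorem noExotic_iff {K : I → Type} [∀ i, Field (K i)] (p a : ℕ) (π : ∀ i, K i) :
    Pool.Agent.W527.Norm.PairingsGenerate p (fun _ => a) π ↔ NoExoticClasses p a π := by
  constructor
  · intro h Ω _ _ _ V _ _ _ F hF n t s hs c hc φ hφ
    exact h V F hF t s hs c (by rw [hc, Finset.prod_const, Finset.card_univ, Fintype.card_fin]) φ hφ
  · intro h Ω _ _ _ V _ _ _ F hF n t s hs c hc φ hφ
    rw [Finset.prod_const, Finset.card_univ, Fintype.card_fin] at hc
    exact h V F hF t s hs c hc φ hφ

theorem exotic_eq (K : I → Type) [∀ i, Field (K i)] (p a : ℕ) :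
    {π : ∀ i, K i | π ∈ Pool.Agent.X281.ZO.weilTuples K p a ∧
      ¬ Pool.Agent.W527.Norm.PairingsGenerate p (fun _ => a) π} = exoticTuples K p a := by
  ext π
  constructor
  · rintro ⟨h1, h2⟩
    exact ⟨h1, fun h => h2 ((noExotic_iff p a π).2 h)⟩
  · rintro ⟨h1, h2⟩
    exact ⟨h1, fun h => h2 ((noExotic_iff p a π).1 h)⟩

/-- **Zero-one law for exotic Tate classes.** -/
theorem result (p : ℕ) [Fact p.Prime] {I : Type} [Fintype I] (K : I → Type) [∀ i, Field (K i)]
    [∀ i, NumberField (K i)] [∀ i, IsCMField (K i)] :
    (∀ a, (weilTuples K p a).Finite) ∧
    ((∀ b, ∀ ω ∈ weilTuples K p b, (∀ i, IntermediateField.adjoin ℚ {ω i} = ⊤) →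
      ¬ NoExoticClasses p b ω) ∨ AlmostNoneExotic K p) ∧
    (PairwiseIndependent K → (∀ i, Nonempty (K i →+* ℚ_[p])) → AlmostNoneExotic K p) := by
  refine ⟨fun a => Pool.Agent.X281.ZO.weilTuples_finite p K a, ?_, ?_⟩
  · by_cases h : ∃ b, ∃ ω ∈ weilTuples K p b, (∀ i, IntermediateField.adjoin ℚ {ω i} = ⊤) ∧
      NoExoticClasses p b ω
    · right
      obtain ⟨b, ω, hω, hgen, hg⟩ := h
      obtain ⟨h, hh, h1⟩ := Pool.Agent.X281.ZO.main_of_generate hω hgen ((noExotic_iff p b ω).2 hg)
      refine ⟨h, hh, fun a => ?_⟩
      have h2 := h1 a
      rwa [exotic_eq] at h2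
    · left
      intro b ω hω hgen hg
      exact h ⟨b, ω, hω, hgen, hg⟩
  · intro hind hx
    obtain ⟨h, hh, h1⟩ := Pool.Agent.X281.ZO.main_indep (p := p) (K := K) hind
      (fun i => Classical.choice (hx i))
    refine ⟨h, hh, fun a => ?_⟩
    have h2 := h1 a
    rwa [exotic_eq] at h2

end Pool.Agent.Results.MP_0fca13_ag.ZeroOneLaw
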